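import Pool.Agent.H73.TS.Targets

/-!
Module SC of the board ts_modules: the power `1/15` of the Wills functional is concave in
dimension at most 7.
-/

open MeasureTheory Set Metric Filter
open scoped ENNReal Topology

namespace Pool.Agent.H29.TS

open Pool.Agent.H73.TS

theorem sc_pow (a : ℝ) (ha : 0 < a) : (a ^ ((1 : ℝ) / 15)) ^ (15 : ℕ) = a := by
  rw [← Real.rpow_natCast, ← Real.rpow_mul ha.le]
  norm_num

theorem sc_hh_pos (a b t : ℝ) (ha : 0 < a) (hb : 0 < b) (ht0 : 0 < t) (ht1 : t < 1) :
    0 < hh a b t := by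
  unfold hh
  have h1 : 0 < 1 - t := by linarith
  have := Real.rpow_pos_of_pos ha ((1 : ℝ) / 15)
  have := Real.rpow_pos_of_pos hb ((1 : ℝ) / 15)
  positivity

theorem sc (hTN : T_TN) (hPW : T_PW) (hLH : T_LH) (hMOM : T_MOM) (hINT : T_INT) (hMON : T_MON)
    (hDOM : T_DOM) : T_SC := by
  intro n A B C t hn1 hn7 hAc hAv hAn hBc hBv hBn hCc ht0 ht1 hABC
  obtain ⟨a₀, ha₀⟩ := hAn
  obtain ⟨b₀', hb₀'⟩ := hBn
  have hAn : A.Nonempty := ⟨a₀, ha₀⟩
  have hBn : B.Nonempty := ⟨b₀', hb₀'⟩
  have hCn : C.Nonempty := ⟨_, hABC a₀ ha₀ b₀' hb₀'⟩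
  obtain ⟨iA, jA, pA⟩ := hINT n A hAn hAc.isBounded
  obtain ⟨iB, jB, pB⟩ := hINT n B hBn hBc.isBounded
  obtain ⟨iC, jC, pC⟩ := hINT n C hCn hCc.isBounded
  rcases eq_or_lt_of_le ht0 with h0 | h0
  · subst h0
    have h1 : A ⊆ C := by
      intro a ha
      have := hABC a ha b₀' hb₀'
      simpa using this
    have h2 : hh (W A) (W B) 0 = W A := by
      unfold hh
      simp only [sub_zero, one_mul, zero_mul, add_zero]
      exact sc_pow _ pA
    rw [h2]
    exact hMON n A C hAn h1 hCc.isBounded
  rcases eq_or_lt_of_le ht1 with h1 | h1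
  · subst h1
    have h1 : B ⊆ C := by
      intro b hb
      have := hABC a₀ ha₀ b hb
      simpa using this
    have h2 : hh (W A) (W B) 1 = W B := by
      unfold hh
      simp only [sub_self, one_mul, zero_mul, zero_add]
      exact sc_pow _ pB
    rw [h2]
    exact hMON n B C hBn h1 hCc.isBounded
  set w₀ := W A with hw₀
  set w₁ := W B with hw₁
  set h := hh w₀ w₁ t with hh'
  have hpos : 0 < h := sc_hh_pos _ _ _ pA pB h0 h1
  obtain ⟨β, hβ, hν⟩ := hLH w₀ w₁ t pA pB ht0 ht1
  have hnR : (1 : ℝ) ≤ n := by exact_mod_cast hn1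
  have hnR7 : (n : ℝ) ≤ 7 := by exact_mod_cast hn7
  have cont : ∀ S : Set (E n), Continuous fun x : E n => Real.exp (-(Real.pi * infDist x S ^ 2)) := by
    intro S
    have := continuous_infDist_pt S
    fun_prop
  have dom : ∀ (S : Set (E n)) (w : ℝ), S.Nonempty → Bornology.IsBounded S → 0 < w →
      ∃ C k : ℝ, 0 < k ∧ ∀ x : E n, Real.exp (-(Real.pi * infDist x S ^ 2)) / w ≤
        C * Real.exp (-(k * ‖x‖ ^ 2)) := by
    intro S w hS hSb hw
    obtain ⟨M, hM, hM2⟩ := hDOM n S hS hSb
    refine ⟨M / w, Real.pi / 2, by positivity, fun x => ?_⟩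
    rw [div_mul_eq_mul_div]
    exact div_le_div_of_nonneg_right (hM2 x) hw.le
  have meas : ∀ (S : Set (E n)), Measurable fun x : E n =>
      ENNReal.ofReal (h * -β * (8 / 7 * Real.pi * infDist x S ^ 2)) := by
    intro S
    apply Measurable.ennreal_ofReal
    have := continuous_infDist_pt S
    apply Continuous.measurable
    fun_prop
  have key := hTN n (fun x => Real.exp (-(Real.pi * infDist x A ^ 2)) / w₀)
    (fun x => Real.exp (-(Real.pi * infDist x B ^ 2)) / w₁)
    ((cont A).div_const _) ((cont B).div_const _)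
    (fun x => div_pos (Real.exp_pos _) pA) (fun x => div_pos (Real.exp_pos _) pB)
    (dom A w₀ hAn hAc.isBounded pA) (dom B w₁ hBn hBc.isBounded pB)
    (by rw [integral_div]; exact div_self pA.ne') (by rw [integral_div]; exact div_self pB.ne')
    t h0 h1 (fun x => ENNReal.ofReal (Real.exp (-(Real.pi * infDist x C ^ 2))))
    (fun x => ENNReal.ofReal (h * -β * (8 / 7 * Real.pi * infDist x A ^ 2)))
    (fun x => ENNReal.ofReal (h * -β * (8 / 7 * Real.pi * infDist x B ^ 2)))
    (cont C).measurable.ennreal_ofReal (meas A) (meas B)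
    (ENNReal.ofReal (h * (1 + β * (n - 15)))) ?_
  · -- the conclusion
    have e1 : ∫⁻ x : E n, ENNReal.ofReal (Real.exp (-(Real.pi * infDist x C ^ 2))) =
        ENNReal.ofReal (W C) :=
      (ofReal_integral_eq_lintegral_ofReal iC (Eventually.of_forall fun x =>
        (Real.exp_pos _).le)).symm
    have e2 : ∀ (S : Set (E n)), IsCompact S → Convex ℝ S → S.Nonempty → 0 < W S →
        Integrable (fun x : E n => infDist x S ^ 2 * Real.exp (-(Real.pi * infDist x S ^ 2))) →
        ∫⁻ x : E n, ENNReal.ofReal (h * -β * (8 / 7 * Real.pi * infDist x S ^ 2)) *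
          ENNReal.ofReal (Real.exp (-(Real.pi * infDist x S ^ 2)) / W S) ≤
        ENNReal.ofReal (h * -β * (8 / 7) * (n / 2)) := by
      intro S hSc hSv hSn hSp hSi
      have q1 : ∀ x : E n, ENNReal.ofReal (h * -β * (8 / 7 * Real.pi * infDist x S ^ 2)) *
          ENNReal.ofReal (Real.exp (-(Real.pi * infDist x S ^ 2)) / W S) =
          ENNReal.ofReal ((h * -β * (8 / 7) / W S) *
            (Real.pi * infDist x S ^ 2 * Real.exp (-(Real.pi * infDist x S ^ 2)))) := by
        intro x
        rw [← ENNReal.ofReal_mul (by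
          have : 0 ≤ -β := by linarith
          positivity)]
        congr 1
        ring
      rw [lintegral_congr q1]
      have q2 : Integrable (fun x : E n => (h * -β * (8 / 7) / W S) *
            (Real.pi * infDist x S ^ 2 * Real.exp (-(Real.pi * infDist x S ^ 2)))) := by
        apply Integrable.const_mul
        have := hSi.const_mul Real.pi
        refine this.congr (Eventually.of_forall fun x => ?_)
        simp only
        ring
      rw [← ofReal_integral_eq_lintegral_ofReal q2 (Eventually.of_forall fun x => by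
        have : 0 ≤ -β := by linarith
        simp only [Pi.zero_apply]
        positivity)]
      apply ENNReal.ofReal_le_ofReal
      rw [integral_const_mul]
      have q3 := hMOM n S hSc hSv hSn
      have q4 : 0 ≤ h * -β * (8 / 7) / W S := by
        have : 0 ≤ -β := by linarith
        positivity
      calc _ ≤ (h * -β * (8 / 7) / W S) * ((n : ℝ) / 2 * W S) := by gcongr
        _ = _ := by field_simp
    rw [e1] at key
    have q5 := e2 A hAc hAv hAn pA jA
    have q6 := e2 B hBc hBv hBn pB jB
    have q7 := key.trans (add_le_add (add_le_add le_rfl q5) q6)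
    have hb : 0 ≤ -β := by linarith
    rw [← ENNReal.ofReal_add pC.le (by positivity), ← ENNReal.ofReal_add (by positivity)
      (by positivity), ENNReal.ofReal_le_ofReal_iff (by positivity)] at q7
    have q8 : 0 ≤ h * -β * (15 - n - 8 / 7 * n) := by
      apply mul_nonneg (by positivity)
      linarith
    nlinarith [q7, q8]
  · -- the pointwise hypothesis
    intro x y
    obtain ⟨a, haA, hda⟩ := hAc.exists_infDist_eq_dist hAn x
    obtain ⟨b, hbB, hdb⟩ := hBc.exists_infDist_eq_dist hBn y
    have hr : infDist ((1 - t) • x + t • y) C ≤ (1 - t) * infDist x A + t * infDist y B := by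
      calc infDist ((1 - t) • x + t • y) C ≤ dist ((1 - t) • x + t • y) ((1 - t) • a + t • b) :=
            infDist_le_dist_of_mem (hABC a haA b hbB)
        _ ≤ dist ((1 - t) • x) ((1 - t) • a) + dist (t • y) (t • b) := dist_add_add_le _ _ _ _
        _ = _ := by
          rw [dist_smul₀, dist_smul₀, hda, hdb, Real.norm_of_nonneg (by linarith : 0 ≤ 1 - t),
            Real.norm_of_nonneg ht0]
    have hpw := hPW n (infDist x A) (infDist y B) (infDist ((1 - t) • x + t • y) C) w₀ w₁ t hn1
      infDist_nonneg infDist_nonneg infDist_nonneg ht0 ht1 hr pA pB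
    have hνp : 0 < (n : ℝ) + 8 / 7 * Real.pi * (infDist x A ^ 2 + infDist y B ^ 2) := by positivity
    have hlh := (hν _ hνp).trans hpw
    have hb : 0 ≤ -β := by linarith
    have hT : 0 ≤ ((1 - t) * (Real.exp (-(Real.pi * infDist x A ^ 2)) / w₀) ^ (-((1 : ℝ) / n)) +
      t * (Real.exp (-(Real.pi * infDist y B ^ 2)) / w₁) ^ (-((1 : ℝ) / n))) ^ n := by
      have h1t : 0 ≤ 1 - t := by linarith
      have := Real.rpow_nonneg (div_pos (Real.exp_pos (-(Real.pi * infDist x A ^ 2))) pA).le
        (-((1 : ℝ) / n))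
      have := Real.rpow_nonneg (div_pos (Real.exp_pos (-(Real.pi * infDist y B ^ 2))) pB).le
        (-((1 : ℝ) / n))
      positivity
    rw [← ENNReal.ofReal_mul (Real.exp_pos _).le, ← ENNReal.ofReal_add
      (mul_nonneg (Real.exp_pos _).le hT) (by positivity), ← ENNReal.ofReal_add
      (add_nonneg (mul_nonneg (Real.exp_pos _).le hT) (by positivity)) (by positivity)]
    apply ENNReal.ofReal_le_ofReal
    have e : h * (1 + β * (n - 15)) =
        h * (1 + β * ((n : ℝ) + 8 / 7 * Real.pi * (infDist x A ^ 2 + infDist y B ^ 2) - 15)) +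
        h * -β * (8 / 7 * Real.pi * infDist x A ^ 2) +
        h * -β * (8 / 7 * Real.pi * infDist y B ^ 2) := by ring
    rw [e]
    gcongr

end Pool.Agent.H29.TS
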