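import Pool.Agent.H73.TS.Targets

/-!
Module TO of the board ts_modules: one dimensional transport.
-/

open MeasureTheory Set Metric Filter
open scoped ENNReal Topology

namespace Pool.Agent.H29.TS

open Pool.Agent.H73.TS

theorem to_cdf (f : ℝ → ℝ) (hc : Continuous f) (hp : ∀ u, 0 < f u) (hi : Integrable f)
    (h1 : ∫ u, f u = 1) :
    ∃ P : ℝ → ℝ, (∀ u, HasDerivAt P (f u) u) ∧ StrictMono P ∧ Set.range P = Set.Ioo 0 1 := by
  set P : ℝ → ℝ := fun u => ∫ x in Set.Iic u, f x with hP
  have hd : ∀ u, HasDerivAt P (f u) u := by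
    intro u
    have h2 : P = fun u => P 0 + ∫ x in (0 : ℝ)..u, f x := by
      funext v
      have := intervalIntegral.integral_Iic_sub_Iic (f := f) (a := (0 : ℝ)) (b := v)
        (μ := volume) hi.integrableOn hi.integrableOn
      simp only [hP]
      linarith
    rw [h2]
    have h3 := intervalIntegral.integral_hasDerivAt_right (a := (0 : ℝ)) (b := u) (f := f)
      (hc.intervalIntegrable _ _) (hc.stronglyMeasurableAtFilter _ _) hc.continuousAt
    simpa using h3.const_add (P 0)
  have hm : StrictMono P := strictMono_of_hasDerivAt_pos hd hp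
  have htop : Tendsto P atTop (𝓝 1) := by
    have := (aecover_Iic (μ := volume) (l := atTop) (b := fun x : ℝ => x)
      tendsto_id).integral_tendsto_of_countably_generated hi
    rw [h1] at this
    exact this
  have hbot : Tendsto P atBot (𝓝 0) := by
    have h4 := (aecover_Ioi (μ := volume) (l := atBot) (a := fun x : ℝ => x)
      tendsto_id).integral_tendsto_of_countably_generated hi
    rw [h1] at h4
    have h5 : P = fun u => 1 - ∫ x in Set.Ioi u, f x := by
      funext u
      have := integral_add_compl (μ := volume) (f := f) (s := Set.Iic u) measurableSet_Iic hi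
      rw [h1, Set.compl_Iic] at this
      simp only [hP]
      linarith
    rw [h5]
    simpa using tendsto_const_nhds (x := (1 : ℝ)).sub h4
  have hcont : Continuous P := continuous_iff_continuousAt.2 fun u => (hd u).continuousAt
  refine ⟨P, hd, hm, ?_⟩
  ext y
  constructor
  · rintro ⟨u, rfl⟩
    constructor
    · have h6 : 0 ≤ P (u - 1) :=
        le_of_tendsto hbot (by
          filter_upwards [eventually_le_atBot (u - 1)] with v hv
          exact hm.monotone hv)
      have h7 : P (u - 1) < P u := hm (by linarith)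
      linarith
    · have h6 : P (u + 1) ≤ 1 :=
        ge_of_tendsto htop (by
          filter_upwards [eventually_ge_atTop (u + 1)] with v hv
          exact hm.monotone hv)
      have h7 : P u < P (u + 1) := hm (by linarith)
      linarith
  · rintro ⟨h0, h1'⟩
    obtain ⟨a, ha⟩ := (hbot.eventually (gt_mem_nhds h0)).exists
    obtain ⟨b, hb⟩ := (htop.eventually (lt_mem_nhds h1')).exists
    have hab : a ≤ b := by
      by_contra h
      push Not at h
      have := hm h
      linarith
    obtain ⟨c, -, hc'⟩ := intermediate_value_Icc hab hcont.continuousOn ⟨ha.le, hb.le⟩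
    exact ⟨c, hc'⟩

theorem to_map (f₀ f₁ : ℝ → ℝ) (hc₀ : Continuous f₀) (hc₁ : Continuous f₁)
    (hp₀ : ∀ u, 0 < f₀ u) (hp₁ : ∀ u, 0 < f₁ u) (hi₀ : Integrable f₀) (hi₁ : Integrable f₁)
    (h1₀ : ∫ u, f₀ u = 1) (h1₁ : ∫ u, f₁ u = 1) :
    ∃ T : ℝ → ℝ, StrictMono T ∧ ∀ u, HasDerivAt T (f₀ u / f₁ (T u)) u := by
  obtain ⟨P, hPd, hPm, hPr⟩ := to_cdf f₀ hc₀ hp₀ hi₀ h1₀
  obtain ⟨Q, hQd, hQm, hQr⟩ := to_cdf f₁ hc₁ hp₁ hi₁ h1₁
  have hex : ∀ u, ∃ v, Q v = P u := by
    intro u
    have : P u ∈ Set.range Q := by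
      rw [hQr, ← hPr]
      exact ⟨u, rfl⟩
    exact this
  choose T hT using hex
  have hTm : StrictMono T := by
    intro a b hab
    rw [← hQm.lt_iff_lt, hT, hT]
    exact hPm hab
  have hTs : Function.Surjective T := by
    intro v
    have : Q v ∈ Set.range P := by
      rw [hPr, ← hQr]
      exact ⟨v, rfl⟩
    obtain ⟨u, hu⟩ := this
    exact ⟨u, hQm.injective (by rw [hT, hu])⟩
  have hTc : Continuous T := by
    have := (hTm.orderIsoOfSurjective T hTs).continuous
    simpa using this
  refine ⟨T, hTm, fun u => ?_⟩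
  rw [hasDerivAt_iff_tendsto_slope]
  have h1 := hasDerivAt_iff_tendsto_slope.1 (hPd u)
  have h2 := hasDerivAt_iff_tendsto_slope.1 (hQd (T u))
  have h3 : Tendsto T (𝓝[≠] u) (𝓝[≠] (T u)) := by
    apply tendsto_nhdsWithin_of_tendsto_nhds_of_eventually_within
    · exact (hTc.tendsto u).mono_left nhdsWithin_le_nhds
    · filter_upwards [self_mem_nhdsWithin] with v hv
      exact fun h => hv (hTm.injective h)
  have h4 := h1.div (h2.comp h3) (hp₁ _).ne'
  refine h4.congr' ?_
  filter_upwards [self_mem_nhdsWithin] with v hv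
  have hne : T v - T u ≠ 0 := sub_ne_zero.2 fun h => hv (hTm.injective h)
  have hne2 : v - u ≠ 0 := sub_ne_zero.2 hv
  have hne3 : P v - P u ≠ 0 := sub_ne_zero.2 fun h => hv (hPm.injective h)
  simp only [Pi.div_apply, Function.comp, slope_def_field, hT]
  field_simp

theorem pf_TO : T_TO := by
  intro f₀ f₁ hc₀ hc₁ hp₀ hp₁ hi₀ hi₁ h1₀ h1₁ t ht0 ht1 F b₀ b₁ hF hb₀ hb₁ K hK
  obtain ⟨T, hTm, hTd⟩ := to_map f₀ f₁ hc₀ hc₁ hp₀ hp₁ hi₀ hi₁ h1₀ h1₁
  have hTc : Continuous T := continuous_iff_continuousAt.2 fun u => (hTd u).continuousAt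
  set r : ℝ → ℝ := fun u => (1 - t) * u + t * T u with hr
  have hrd : ∀ u, HasDerivAt r ((1 - t) * 1 + t * (f₀ u / f₁ (T u))) u := by
    intro u
    exact ((hasDerivAt_id u).const_mul (1 - t)).add ((hTd u).const_mul t)
  have hrp : ∀ u, 0 < (1 - t) * 1 + t * (f₀ u / f₁ (T u)) := by
    intro u
    have := div_pos (hp₀ u) (hp₁ (T u))
    have h2 : 0 < 1 - t := by linarith
    positivity
  have hrm : StrictMono r := strictMono_of_hasDerivAt_pos hrd hrp
  have hrc : Continuous r := continuous_iff_continuousAt.2 fun u => (hrd u).continuousAt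
  have e1 : ∫⁻ u, ENNReal.ofReal ((1 - t) * 1 + t * (f₀ u / f₁ (T u))) * F (r u) ≤
      ∫⁻ u, F u := by
    have h := lintegral_image_eq_lintegral_abs_deriv_mul (s := Set.univ) (f := r)
      (f' := fun u => (1 - t) * 1 + t * (f₀ u / f₁ (T u))) MeasurableSet.univ
      (fun x _ => (hrd x).hasDerivWithinAt) hrm.injective.injOn F
    rw [Measure.restrict_univ] at h
    calc ∫⁻ u, ENNReal.ofReal ((1 - t) * 1 + t * (f₀ u / f₁ (T u))) * F (r u)
        = ∫⁻ u, ENNReal.ofReal |(1 - t) * 1 + t * (f₀ u / f₁ (T u))| * F (r u) := by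
          refine lintegral_congr fun u => ?_
          rw [abs_of_pos (hrp u)]
      _ = ∫⁻ u in r '' Set.univ, F u := h.symm
      _ ≤ ∫⁻ u, F u := setLIntegral_le_lintegral _ _
  have e2 : ∫⁻ u, b₁ (T u) * ENNReal.ofReal (f₀ u) ≤ ∫⁻ u, b₁ u * ENNReal.ofReal (f₁ u) := by
    have h := lintegral_image_eq_lintegral_abs_deriv_mul (s := Set.univ) (f := T)
      (f' := fun u => f₀ u / f₁ (T u)) MeasurableSet.univ
      (fun x _ => (hTd x).hasDerivWithinAt) hTm.injective.injOn
      (fun u => b₁ u * ENNReal.ofReal (f₁ u))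
    rw [Measure.restrict_univ] at h
    calc ∫⁻ u, b₁ (T u) * ENNReal.ofReal (f₀ u)
        = ∫⁻ u, ENNReal.ofReal |f₀ u / f₁ (T u)| * (b₁ (T u) * ENNReal.ofReal (f₁ (T u))) := by
          refine lintegral_congr fun u => ?_
          have hq := div_pos (hp₀ u) (hp₁ (T u))
          rw [abs_of_pos hq, mul_left_comm, ← ENNReal.ofReal_mul hq.le,
            div_mul_cancel₀ _ (hp₁ (T u)).ne']
      _ = ∫⁻ u in T '' Set.univ, b₁ u * ENNReal.ofReal (f₁ u) := h.symm
      _ ≤ ∫⁻ u, b₁ u * ENNReal.ofReal (f₁ u) := setLIntegral_le_lintegral _ _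
  have e0 : ∫⁻ u, ENNReal.ofReal (f₀ u) = 1 := by
    rw [← ofReal_integral_eq_lintegral_ofReal hi₀ (Eventually.of_forall fun u => (hp₀ u).le), h1₀,
      ENNReal.ofReal_one]
  have hf₀m : Measurable fun u => ENNReal.ofReal (f₀ u) := hc₀.measurable.ennreal_ofReal
  have m1 : Measurable fun u => ENNReal.ofReal ((1 - t) * 1 + t * (f₀ u / f₁ (T u))) * F (r u) := by
    apply Measurable.mul
    · apply Measurable.ennreal_ofReal
      exact (measurable_const.add
        ((hc₀.measurable.div (hc₁.comp hTc).measurable).const_mul t))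
    · exact hF.comp hrc.measurable
  have m2 : Measurable fun u => b₀ u * ENNReal.ofReal (f₀ u) := hb₀.mul hf₀m
  calc K = K * ∫⁻ u, ENNReal.ofReal (f₀ u) := by rw [e0, mul_one]
    _ = ∫⁻ u, K * ENNReal.ofReal (f₀ u) := (lintegral_const_mul _ hf₀m).symm
    _ ≤ ∫⁻ u, ((ENNReal.ofReal ((1 - t) * 1 + t * (f₀ u / f₁ (T u))) * F (r u)
          + b₀ u * ENNReal.ofReal (f₀ u)) + b₁ (T u) * ENNReal.ofReal (f₀ u)) := by
        refine lintegral_mono fun u => ?_
        have h := hK u (T u)
        calc K * ENNReal.ofReal (f₀ u)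
            ≤ (F ((1 - t) * u + t * T u) *
              ENNReal.ofReal ((1 - t) / f₀ u + t / f₁ (T u)) + b₀ u + b₁ (T u)) *
                ENNReal.ofReal (f₀ u) := by gcongr
          _ = _ := by
            rw [add_mul, add_mul, mul_assoc, ← ENNReal.ofReal_mul (by
              have h2 : 0 < 1 - t := by linarith
              have := hp₀ u
              have := hp₁ (T u)
              positivity), mul_comm (F _)]
            congr 4
            have := (hp₁ (T u)).ne'
            have := (hp₀ u).ne'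
            field_simp
    _ = (∫⁻ u, ENNReal.ofReal ((1 - t) * 1 + t * (f₀ u / f₁ (T u))) * F (r u)) +
          (∫⁻ u, b₀ u * ENNReal.ofReal (f₀ u)) + ∫⁻ u, b₁ (T u) * ENNReal.ofReal (f₀ u) := by
        have q1 := lintegral_add_left (μ := volume) m1
          (fun u => b₀ u * ENNReal.ofReal (f₀ u))
        have q2 := lintegral_add_left (μ := volume) (m1.add m2)
          (fun u => b₁ (T u) * ENNReal.ofReal (f₀ u))
        simp only [Pi.add_apply] at q2
        rw [q2, q1]
    _ ≤ _ := by gcongr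

end Pool.Agent.H29.TS
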