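import Pool.Agent.H73.TS.Targets

/-!
Module TS of the board ts_modules: transport, induction step.
-/

open MeasureTheory Set Metric Filter
open scoped ENNReal Topology

namespace Pool.Agent.H29.TS

open Pool.Agent.H73.TS

theorem ts_vol0 : (volume : Measure (E 0)) Set.univ = 1 := by
  rw [volume_euclideanSpace_eq_dirac]
  simp

theorem ts_int0 (g : E 0 → ℝ) (y : E 0) : ∫ z, g z = g y := by
  have h1 : ∀ z, g z = g y := fun z => by rw [Subsingleton.elim z y]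
  rw [integral_congr_ae (Eventually.of_forall h1), integral_const]
  simp [Measure.real, ts_vol0]

theorem ts_ineq (hHO : T_HO) (n : ℕ) (hn : n ≠ 0) (t A₀ A₁ f₀ f₁ : ℝ) (ht0 : 0 < t) (ht1 : t < 1)
    (hA₀ : 0 < A₀) (hA₁ : 0 < A₁) (hf₀ : 0 < f₀) (hf₁ : 0 < f₁) :
    ((1 - t) * f₀ ^ (-((1 : ℝ) / ((n + 1 : ℕ) : ℝ))) +
      t * f₁ ^ (-((1 : ℝ) / ((n + 1 : ℕ) : ℝ)))) ^ (n + 1) ≤
    ((1 - t) / A₀ + t / A₁) * ((1 - t) * (f₀ / A₀) ^ (-((1 : ℝ) / n)) +
      t * (f₁ / A₁) ^ (-((1 : ℝ) / n))) ^ n := by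
  have hn' : (0 : ℝ) < n := by exact_mod_cast Nat.pos_of_ne_zero hn
  have hg₀ : 0 < f₀ / A₀ := div_pos hf₀ hA₀
  have hg₁ : 0 < f₁ / A₁ := div_pos hf₁ hA₁
  have key := hHO 1 n t (1 / A₀) (1 / A₁) ((f₀ / A₀) ^ (-((1 : ℝ) / n)))
    ((f₁ / A₁) ^ (-((1 : ℝ) / n))) zero_le_one hn'.le (by positivity) ht0.le ht1.le
    (by positivity) (by positivity) (Real.rpow_pos_of_pos hg₀ _) (Real.rpow_pos_of_pos hg₁ _)
  have aux : ∀ f A : ℝ, 0 < f → 0 < A →
      ((1 / A) ^ (1 : ℝ) * ((f / A) ^ (-((1 : ℝ) / n))) ^ (n : ℝ)) ^ (1 / (1 + (n : ℝ))) =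
        f ^ (-((1 : ℝ) / ((n + 1 : ℕ) : ℝ))) := by
    intro f A hf hA
    have hfA : 0 < f / A := div_pos hf hA
    rw [← Real.rpow_mul hfA.le]
    have e1 : -((1 : ℝ) / n) * n = -1 := by field_simp
    rw [e1, Real.rpow_one, Real.rpow_neg_one]
    have e2 : 1 / A * (f / A)⁻¹ = f⁻¹ := by field_simp
    rw [e2, ← Real.rpow_neg_one f, ← Real.rpow_mul hf.le]
    congr 1
    push_cast
    rw [add_comm]
    ring
  rw [aux f₀ A₀ hf₀ hA₀, aux f₁ A₁ hf₁ hA₁, Real.rpow_one] at key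
  have e3 : ∀ x : ℝ, x ^ (1 + (n : ℝ)) = x ^ (n + 1) := by
    intro x
    rw [add_comm, ← Real.rpow_natCast]
    push_cast
    rfl
  rw [e3, Real.rpow_natCast] at key
  calc _ ≤ _ := key
    _ = _ := by
      congr 1
      ring

theorem ts_fub (hFUB : T_FUB) (n : ℕ) (G : E (n + 1) → ℝ≥0∞) (hG : Measurable G) :
    ∫⁻ x, G x = ∫⁻ u : ℝ, ∫⁻ z : E n, G (cons u z) := by
  obtain ⟨e, he, hmp⟩ := hFUB n
  rw [← hmp.lintegral_comp hG]
  have hm : Measurable fun p : ℝ × E n => G (cons p.1 p.2) :=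
    hG.comp continuous_cons.measurable
  have h1 : ∫⁻ p : ℝ × E n, G (e p) = ∫⁻ p : ℝ × E n, G (cons p.1 p.2) :=
    lintegral_congr fun p => by rw [he]
  rw [h1, Measure.volume_eq_prod, lintegral_prod _ hm.aemeasurable]

theorem ts (hTO : T_TO) (hHO : T_HO) (hMA : T_MA) (hFUB : T_FUB) : T_TS := by
  intro n hTN f₀ f₁ hc₀ hc₁ hp₀ hp₁ hd₀ hd₁ h1₀ h1₁ t ht0 ht1 F b₀ b₁ hF hb₀ hb₁ K hK
  obtain ⟨mc₀, mp₀, mi₀, mj₀, me₀, md₀⟩ := hMA n f₀ hc₀ hp₀ hd₀
  obtain ⟨mc₁, mp₁, mi₁, mj₁, me₁, md₁⟩ := hMA n f₁ hc₁ hp₁ hd₁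
  set A₀ : ℝ → ℝ := fun u => ∫ y : E n, f₀ (cons u y) with hA₀
  set A₁ : ℝ → ℝ := fun u => ∫ y : E n, f₁ (cons u y) with hA₁
  have hcm : ∀ u : ℝ, Measurable fun y : E n => cons u y := fun u =>
    (continuous_cons.comp (Continuous.prodMk_right u)).measurable
  have hcc : ∀ u : ℝ, Continuous fun y : E n => cons u y := fun u =>
    continuous_cons.comp (Continuous.prodMk_right u)
  have h1t : 0 < 1 - t := by linarith
  -- the fibre inequality
  have claim : ∀ u v : ℝ, K ≤ (∫⁻ z : E n, F (cons ((1 - t) * u + t * v) z)) *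
      ENNReal.ofReal ((1 - t) / A₀ u + t / A₁ v) +
      (∫⁻ y : E n, b₀ (cons u y) * ENNReal.ofReal (f₀ (cons u y) / A₀ u)) +
      ∫⁻ y : E n, b₁ (cons v y) * ENNReal.ofReal (f₁ (cons v y) / A₁ v) := by
    intro u v
    have hD : 0 < (1 - t) / A₀ u + t / A₁ v := by
      have := mp₀ u
      have := mp₁ v
      positivity
    have dom : ∀ (f : E (n + 1) → ℝ) (A w : ℝ), 0 < A →
        (∃ C k : ℝ, 0 < k ∧ ∀ y : E n, f (cons w y) ≤ C * Real.exp (-(k * ‖y‖ ^ 2))) →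
        ∃ C k : ℝ, 0 < k ∧ ∀ y : E n, f (cons w y) / A ≤ C * Real.exp (-(k * ‖y‖ ^ 2)) := by
      rintro f A w hA ⟨C, k, hk, h⟩
      refine ⟨C / A, k, hk, fun y => ?_⟩
      rw [div_mul_eq_mul_div]
      exact div_le_div_of_nonneg_right (h y) hA.le
    have key := hTN (fun y => f₀ (cons u y) / A₀ u) (fun y => f₁ (cons v y) / A₁ v)
      ((hc₀.comp (hcc u)).div_const _) ((hc₁.comp (hcc v)).div_const _)
      (fun y => div_pos (hp₀ _) (mp₀ u)) (fun y => div_pos (hp₁ _) (mp₁ v))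
      (dom f₀ _ u (mp₀ u) (md₀ u)) (dom f₁ _ v (mp₁ v) (md₁ v))
      (by rw [integral_div]; exact div_self (mp₀ u).ne')
      (by rw [integral_div]; exact div_self (mp₁ v).ne') t ht0 ht1
      (fun z => F (cons ((1 - t) * u + t * v) z) * ENNReal.ofReal ((1 - t) / A₀ u + t / A₁ v))
      (fun y => b₀ (cons u y)) (fun y => b₁ (cons v y))
      ((hF.comp (hcm _)).mul_const _) (hb₀.comp (hcm _)) (hb₁.comp (hcm _)) K ?_
    · have hq := lintegral_mul_const (μ := volume) (ENNReal.ofReal ((1 - t) / A₀ u + t / A₁ v))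
        (f := fun z : E n => F (cons ((1 - t) * u + t * v) z)) (hF.comp (hcm _))
      rw [hq] at key
      exact key
    · intro x y
      have h := hK (cons u x) (cons v y)
      rw [smul_cons, smul_cons, cons_add] at h
      refine h.trans ?_
      gcongr ?_ + _ + _
      rw [mul_assoc, ← ENNReal.ofReal_mul hD.le]
      gcongr F _ * ENNReal.ofReal ?_
      rcases Nat.eq_zero_or_pos n with hn | hn
      · subst hn
        have e0 : f₀ (cons u x) / A₀ u = 1 := by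
          have : A₀ u = f₀ (cons u x) := ts_int0 (fun y => f₀ (cons u y)) x
          rw [this]
          exact div_self (hp₀ _).ne'
        have e1 : f₁ (cons v y) / A₁ v = 1 := by
          have : A₁ v = f₁ (cons v y) := ts_int0 (fun y => f₁ (cons v y)) y
          rw [this]
          exact div_self (hp₁ _).ne'
        have e2 : A₀ u = f₀ (cons u x) := ts_int0 (fun y => f₀ (cons u y)) x
        have e3 : A₁ v = f₁ (cons v y) := ts_int0 (fun y => f₁ (cons v y)) y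
        rw [e2, e3]
        simp only [zero_add, pow_one, Nat.cast_one, div_one, pow_zero, mul_one]
        rw [Real.rpow_neg_one, Real.rpow_neg_one, div_eq_mul_inv, div_eq_mul_inv]
      · exact ts_ineq hHO n hn.ne' t (A₀ u) (A₁ v) _ _ ht0 ht1 (mp₀ u) (mp₁ v) (hp₀ _) (hp₁ _)
  have hFm : Measurable fun p : ℝ × E n => F (cons p.1 p.2) :=
    hF.comp continuous_cons.measurable
  have hbm : ∀ (b : E (n + 1) → ℝ≥0∞) (f : E (n + 1) → ℝ) (A : ℝ → ℝ), Measurable b →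
      Continuous f → Continuous A →
      Measurable fun p : ℝ × E n => b (cons p.1 p.2) * ENNReal.ofReal (f (cons p.1 p.2) / A p.1) := by
    intro b f A hb hf hA
    apply (hb.comp continuous_cons.measurable).mul
    apply Measurable.ennreal_ofReal
    exact (hf.comp continuous_cons).measurable.div (hA.comp continuous_fst).measurable
  have main := hTO A₀ A₁ mc₀ mc₁ mp₀ mp₁ mi₀ mi₁ (me₀.trans h1₀) (me₁.trans h1₁) t ht0 ht1
    (fun u => ∫⁻ z : E n, F (cons u z))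
    (fun u => ∫⁻ y : E n, b₀ (cons u y) * ENNReal.ofReal (f₀ (cons u y) / A₀ u))
    (fun u => ∫⁻ y : E n, b₁ (cons u y) * ENNReal.ofReal (f₁ (cons u y) / A₁ u))
    hFm.lintegral_prod_right' (hbm b₀ f₀ A₀ hb₀ hc₀ mc₀).lintegral_prod_right'
    (hbm b₁ f₁ A₁ hb₁ hc₁ mc₁).lintegral_prod_right' K claim
  have fin : ∀ (b : E (n + 1) → ℝ≥0∞) (f : E (n + 1) → ℝ) (A : ℝ → ℝ), Measurable b →
      Continuous f → (∀ x, 0 < f x) → (∀ u, 0 < A u) →
      ∫⁻ u : ℝ, (∫⁻ y : E n, b (cons u y) * ENNReal.ofReal (f (cons u y) / A u)) *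
        ENNReal.ofReal (A u) = ∫⁻ x, b x * ENNReal.ofReal (f x) := by
    intro b f A hb hf hfp hA
    rw [ts_fub hFUB n (fun x => b x * ENNReal.ofReal (f x)) (hb.mul hf.measurable.ennreal_ofReal)]
    refine lintegral_congr fun u => ?_
    have hm : Measurable fun y : E n => b (cons u y) * ENNReal.ofReal (f (cons u y) / A u) :=
      (hb.comp (hcm u)).mul (((hf.comp (hcc u)).div_const _).measurable.ennreal_ofReal)
    rw [← lintegral_mul_const _ hm]
    refine lintegral_congr fun y => ?_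
    rw [mul_assoc, ← ENNReal.ofReal_mul (div_pos (hfp _) (hA u)).le,
      div_mul_cancel₀ _ (hA u).ne']
  rw [fin b₀ f₀ A₀ hb₀ hc₀ hp₀ mp₀, fin b₁ f₁ A₁ hb₁ hc₁ hp₁ mp₁, ← ts_fub hFUB n F hF] at main
  exact main

end Pool.Agent.H29.TS
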